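import Mathlib
import Pool.Agent.Helper40.Defs
import Pool.Agent.Helper40.Main

open Set Topology TopologicalSpace
open scoped Manifold ContDiff
open Pool.Agent.Helper40

namespace Pool.Agent.Results.MP_14c953_ag.UniversalCoverNotDomain

/-- There are a compact algebraic manifold `M` (a surface) with infinite fundamental group and a
universal covering `π : X → M` such that `X` is not bimeromorphic to any domain `Ω` of any compact
connected complex manifold `N`. -/
theorem result :
    ∃ (M : Type) (_ : TopologicalSpace M) (_ : ChartedSpace (ℂ × ℂ) M),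
      IsCompactAlgebraicManifold (ℂ × ℂ) M ∧
      (∀ x : M, Infinite (FundamentalGroup M x)) ∧
      ∃ (X : Type) (_ : TopologicalSpace X) (_ : ChartedSpace (ℂ × ℂ) X) (π : X → M),
        IsUniversalCovering (E := ℂ × ℂ) π ∧
        ∀ (E : Type*) [NormedAddCommGroup E] [NormedSpace ℂ E]
          (N : Type*) [TopologicalSpace N] [ChartedSpace E N],
          IsComplexManifold E N → CompactSpace N → ConnectedSpace N →
          ∀ Ω : Opens N, IsConnected (Ω : Set N) → ¬ IsBimeromorphic (ℂ × ℂ) X E Ω :=
  main

end Pool.Agent.Results.MP_14c953_ag.UniversalCoverNotDomain
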